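import Mathlib

/-!
MP_62c2e8_lc, question Q2: the inclusion of BPP in the class exists-parity-P fails relative to an
oracle, even against the larger class P with an oracle in NP with an oracle in parity-P, also when
the latter machines may use a polynomial extension over the field with two elements of the oracle.
-/

open Filter

namespace Pool.Agent.Results.MP_62c2e8_lc.OracleSeparation

/-- Languages (and oracles) are sets of binary strings. -/
abbrev Lang : Type := Set (List Bool)

/-- A run of a deterministic oracle machine on a fixed input, as a tree: each inner node is a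
query `q` to the oracle, with the rest of the run for the answer no and for the answer yes. -/
inductive Run : Type
  | answer (b : Bool) : Run
  | ask (q : List Bool) (no yes : Run) : Run

namespace Run

/-- The run accepts with the oracle `A`. -/
def Accepts (A : Lang) : Run → Prop
  | answer b => b = true
  | ask q no yes => (q ∈ A ∧ yes.Accepts A) ∨ (q ∉ A ∧ no.Accepts A)

/-- Every path of the run has at most `d` queries, and every query has length at most `l`. -/
def Within (l : ℕ) : ℕ → Run → Prop
  | _, answer _ => True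
  | 0, ask _ _ _ => False
  | d + 1, ask q no yes => q.length ≤ l ∧ Within l d no ∧ Within l d yes

end Run

/-- `F A` is the language decided by the oracle machine `F` with the oracle `A`; the machine asks,
on an input of length `n`, at most `p n` queries of length at most `p n`, for a polynomial `p`. -/
def PolyQueries (F : Lang → Lang) : Prop :=
  ∃ p : Polynomial ℕ, ∀ x : List Bool, ∃ T : Run,
    T.Within (p.eval x.length) (p.eval x.length) ∧ ∀ A : Lang, x ∈ F A ↔ T.Accepts A

/-- The pairing of strings: the bits of `x` doubled, then `01`, then `y`. -/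
def pair (x y : List Bool) : List Bool := x.flatMap (fun b => [b, b]) ++ ([false, true] ++ y)

/-- The languages decided by the machines of the family `M` with the oracle `A`. -/
def rel (M : Set (Lang → Lang)) (A : Lang) : Set Lang := {L | ∃ F ∈ M, L = F A}

/-- The parity operator on classes of languages. -/
def parityOp (K : Set Lang) : Set Lang :=
  {L | ∃ B ∈ K, ∃ p : Polynomial ℕ, ∀ x,
    x ∈ L ↔ Odd {y : List Bool | y.length ≤ p.eval x.length ∧ pair x y ∈ B}.ncard}

/-- The existential operator on classes of languages. -/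
def existsOp (K : Set Lang) : Set Lang :=
  {L | ∃ B ∈ K, ∃ p : Polynomial ℕ, ∀ x,
    x ∈ L ↔ ∃ y : List Bool, y.length ≤ p.eval x.length ∧ pair x y ∈ B}

/-- The operator of bounded error probability: a random string `r` of length `p |x|` gives the
right answer with probability at least `2 / 3`. -/
def bpOp (K : Set Lang) : Set Lang :=
  {L | ∃ B ∈ K, ∃ p : Polynomial ℕ, ∀ x,
    2 * 2 ^ (p.eval x.length) ≤
      3 * {r : List Bool | r.length = p.eval x.length ∧ (pair x r ∈ B ↔ x ∈ L)}.ncard}

/-- The machine which, on the input `(x, r)`, asks whether `r` is in the oracle. -/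
def sample (A : Lang) : Lang := {w | ∃ x r, w = pair x r ∧ r ∈ A}

/-- The indicator function of `A`, with values in the field with two elements. -/
noncomputable def val (A : Lang) : List Bool → ZMod 2 :=
  fun q => open Classical in if q ∈ A then 1 else 0

/-- Each bit of the oracle `E A` is a polynomial over the field with two elements in the bits of
`A`, of degree at most `p |q|` for the bit with the address `q`, for a polynomial `p`. -/
def PolyExtension (E : Lang → Lang) : Prop :=
  ∃ p : Polynomial ℕ, ∀ q : List Bool, ∃ f : MvPolynomial (List Bool) (ZMod 2),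
    f.totalDegree ≤ p.eval q.length ∧ ∀ A : Lang, q ∈ E A ↔ MvPolynomial.eval (val A) f = 1

/-! ### The pairing -/

theorem pair_inj {x y x' y' : List Bool} (h : pair x y = pair x' y') : x = x' ∧ y = y' := by
  induction x generalizing x' with
  | nil =>
    cases x' with
    | nil => simpa [pair] using h
    | cons b t =>
      simp only [pair, List.flatMap_nil, List.nil_append, List.cons_append, List.flatMap_cons,
        List.cons.injEq] at h
      obtain ⟨h1, h2, -⟩ := h
      subst h1
      exact absurd h2 (by decide)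
  | cons a t ih =>
    cases x' with
    | nil =>
      simp only [pair, List.flatMap_nil, List.nil_append, List.cons_append, List.flatMap_cons,
        List.cons.injEq] at h
      obtain ⟨h1, h2, -⟩ := h
      subst h1
      exact absurd h2 (by decide)
    | cons b t' =>
      simp only [pair, List.nil_append, List.cons_append, List.flatMap_cons,
        List.cons.injEq] at h
      obtain ⟨h1, -, h3⟩ := h
      have h4 : pair t y = pair t' y' := by
        simp only [pair, List.nil_append, List.cons_append]
        exact h3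
      obtain ⟨h5, h6⟩ := ih h4
      exact ⟨by rw [h1, h5], h6⟩

theorem length_pair (x y : List Bool) : (pair x y).length = 2 * x.length + 2 + y.length := by
  have h : (x.flatMap (fun b => [b, b])).length = 2 * x.length := by
    induction x with
    | nil => rfl
    | cons a t ih =>
      simp only [List.flatMap_cons, List.length_append, List.length_cons, List.length_nil, ih]
      omega
  simp only [pair, List.length_append, h, List.length_cons, List.length_nil]
  omega

/-! ### Polynomials with natural coefficients -/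

theorem eval_mono (p : Polynomial ℕ) {a b : ℕ} (h : a ≤ b) : p.eval a ≤ p.eval b := by
  rw [Polynomial.eval_eq_sum_range, Polynomial.eval_eq_sum_range]
  exact Finset.sum_le_sum fun i _ => Nat.mul_le_mul_left _ (Nat.pow_le_pow_left h i)

theorem eventually_le_two_pow (p : Polynomial ℕ) :
    ∀ᶠ n in atTop, 3 * p.eval n ≤ 2 ^ n := by
  have h : Tendsto (fun n : ℕ => ((p.eval n : ℕ) : ℝ) / 2 ^ n) atTop (nhds 0) := by
    induction p using Polynomial.induction_on' with
    | add p q hp hq =>
      have := hp.add hq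
      simp only [add_zero] at this
      refine this.congr fun n => ?_
      rw [Polynomial.eval_add]
      push_cast
      ring
    | monomial k a =>
      have h1 := (tendsto_pow_const_div_const_pow_of_one_lt k (one_lt_two : (1 : ℝ) < 2)).const_mul
        (a : ℝ)
      rw [mul_zero] at h1
      refine h1.congr fun n => ?_
      rw [Polynomial.eval_monomial]
      push_cast
      ring
  have h2 := h.eventually (gt_mem_nhds (show (0 : ℝ) < 1 / 3 by norm_num))
  filter_upwards [h2] with n hn
  have h3 : (0 : ℝ) < 2 ^ n := by positivity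
  rw [div_lt_iff₀ h3] at hn
  have h4 : (3 : ℝ) * ((p.eval n : ℕ) : ℝ) ≤ 2 ^ n := by linarith
  exact_mod_cast h4

/-! ### Functions of the oracle of small degree -/

/-- `P` is given by a polynomial of degree at most `e`. -/
def PolyAt (e : ℕ) (P : Lang → Prop) : Prop :=
  ∃ f : MvPolynomial (List Bool) (ZMod 2), f.totalDegree ≤ e ∧
    ∀ A : Lang, P A ↔ MvPolynomial.eval (val A) f = 1

theorem zmod_two_cases (a : ZMod 2) : a = 0 ∨ a = 1 := by
  revert a
  decide

theorem PolyAt.mono {e e' : ℕ} {P : Lang → Prop} (h : PolyAt e P) (he : e ≤ e') : PolyAt e' P := by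
  obtain ⟨f, hf, hP⟩ := h
  exact ⟨f, hf.trans he, hP⟩

/-- A run with small degree answers has small degree. -/
theorem polyAt_run {l e : ℕ} (C : Lang → Lang)
    (hC : ∀ q : List Bool, q.length ≤ l → PolyAt e (fun A => q ∈ C A)) :
    ∀ (d : ℕ) (T : Run), T.Within l d → PolyAt (d * e) (fun A => T.Accepts (C A)) := by
  intro d T
  induction T generalizing d with
  | answer b =>
    intro _
    cases b with
    | false => exact ⟨0, by simp, fun A => by simp [Run.Accepts]⟩
    | true => exact ⟨1, by simp, fun A => by simp [Run.Accepts]⟩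
  | ask q no yes ihn ihy =>
    intro hT
    cases d with
    | zero => exact absurd hT (by simp [Run.Within])
    | succ d =>
      obtain ⟨hq, hn, hy⟩ := hT
      obtain ⟨f, hf, hfP⟩ := hC q hq
      obtain ⟨g, hg, hgP⟩ := ihn d hn
      obtain ⟨k, hk, hkP⟩ := ihy d hy
      refine ⟨f * k + (1 + f) * g, ?_, fun A => ?_⟩
      · have h1 : (f * k).totalDegree ≤ (d + 1) * e :=
          (MvPolynomial.totalDegree_mul _ _).trans (by rw [add_mul, one_mul]; omega)
        have h2 : (1 + f).totalDegree ≤ e :=
          (MvPolynomial.totalDegree_add _ _).trans (by simp [hf])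
        have h3 : ((1 + f) * g).totalDegree ≤ (d + 1) * e :=
          (MvPolynomial.totalDegree_mul _ _).trans (by rw [add_mul, one_mul]; omega)
        exact (MvPolynomial.totalDegree_add _ _).trans (max_le h1 h3)
      · have a1 : q ∈ C A ↔ _ := hfP A
        have a2 : no.Accepts (C A) ↔ _ := hgP A
        have a3 : yes.Accepts (C A) ↔ _ := hkP A
        simp only [Run.Accepts, map_add, map_mul, map_one]
        rw [a1, a2, a3]
        generalize MvPolynomial.eval (val A) f = x
        generalize MvPolynomial.eval (val A) g = y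
        generalize MvPolynomial.eval (val A) k = z
        revert x y z
        decide

/-- A parity of conditions of small degree has small degree. -/
theorem polyAt_parity {e : ℕ} {S : Set (List Bool)} (hS : S.Finite) (P : List Bool → Lang → Prop)
    (hP : ∀ y ∈ S, PolyAt e (P y)) : PolyAt e (fun A => Odd {y | y ∈ S ∧ P y A}.ncard) := by
  classical
  choose! f hf hfP using hP
  refine ⟨∑ y ∈ hS.toFinset, f y, ?_, fun A => ?_⟩
  · refine (MvPolynomial.totalDegree_finsetSum _ _).trans (Finset.sup_le fun y hy => ?_)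
    exact hf y (hS.mem_toFinset.1 hy)
  · have h1 : {y | y ∈ S ∧ P y A} = ((hS.toFinset.filter fun y => P y A : Finset _) : Set _) := by
      ext y
      simp
    change Odd {y | y ∈ S ∧ P y A}.ncard ↔ _
    rw [h1, Set.ncard_coe_finset, map_sum]
    have h2 : ∑ y ∈ hS.toFinset, MvPolynomial.eval (val A) (f y) =
        ∑ y ∈ hS.toFinset, if P y A then (1 : ZMod 2) else 0 := by
      refine Finset.sum_congr rfl fun y hy => ?_
      have h3 := hfP y (hS.mem_toFinset.1 hy) A
      by_cases h4 : P y A
      · rw [if_pos h4]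
        exact h3.1 h4
      · rw [if_neg h4]
        rcases zmod_two_cases (MvPolynomial.eval (val A) (f y)) with h5 | h5
        · exact h5
        · exact absurd (h3.2 h5) h4
    rw [h2, ← Finset.sum_filter, Finset.sum_const, nsmul_eq_mul, mul_one]
    exact (ZMod.natCast_eq_one_iff_odd).symm

/-- The oracle `A` with the answers at the strings of `S` reversed. -/
def flip (A : Lang) (S : Finset (List Bool)) : Lang :=
  {w | (w ∈ A ∧ w ∉ S) ∨ (w ∉ A ∧ w ∈ S)}

/-- The sum of a polynomial of degree less than `|T|` over the cube of dimension `|T|`. -/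
theorem sum_cube (f : MvPolynomial (List Bool) (ZMod 2)) (A : Lang) (T : Finset (List Bool))
    (hT : f.totalDegree < T.card) :
    ∑ S ∈ T.powerset, MvPolynomial.eval (val (flip A S)) f = 0 := by
  classical
  simp_rw [MvPolynomial.eval_eq]
  rw [Finset.sum_comm]
  refine Finset.sum_eq_zero fun m hm => ?_
  rw [← Finset.mul_sum]
  have h1 : m.support.card < T.card := by
    refine lt_of_le_of_lt ?_ ((MvPolynomial.le_totalDegree hm).trans_lt hT)
    rw [Finsupp.sum, Finset.card_eq_sum_ones]
    refine Finset.sum_le_sum fun i hi => ?_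
    exact Nat.one_le_iff_ne_zero.2 (Finsupp.mem_support_iff.1 hi)
  obtain ⟨q, hqT, hqm⟩ : ∃ q ∈ T, q ∉ m.support := by
    by_contra h
    push Not at h
    exact absurd (Finset.card_le_card h) (not_le.2 h1)
  have h2 : T = insert q (T.erase q) := (Finset.insert_erase hqT).symm
  have h3 : ∑ S ∈ T.powerset, ∏ i ∈ m.support, val (flip A S) i ^ m i = 0 := by
    rw [h2, Finset.sum_powerset_insert (Finset.notMem_erase q T)]
    have h4 : ∀ S ∈ (T.erase q).powerset,
        ∏ i ∈ m.support, val (flip A (insert q S)) i ^ m i =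
          ∏ i ∈ m.support, val (flip A S) i ^ m i := by
      intro S _
      refine Finset.prod_congr rfl fun i hi => ?_
      have h5 : i ≠ q := fun h => hqm (h ▸ hi)
      have h6 : (i ∈ flip A (insert q S)) = (i ∈ flip A S) := by
        simp [flip, h5]
      simp only [val, h6]
    rw [Finset.sum_congr rfl h4, ← two_mul]
    have h7 : (2 : ZMod 2) = 0 := by decide
    rw [h7, zero_mul]
  rw [h3, mul_zero]

/-- A polynomial which is nonzero at `flip A T` is nonzero at `flip A S` for a small `S`. -/
theorem exists_small (f : MvPolynomial (List Bool) (ZMod 2)) (A : Lang) :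
    ∀ T : Finset (List Bool), MvPolynomial.eval (val (flip A T)) f ≠ 0 →
      ∃ S ⊆ T, S.card ≤ f.totalDegree ∧ MvPolynomial.eval (val (flip A S)) f ≠ 0 := by
  classical
  intro T
  induction T using Finset.strongInduction with
  | H T ih =>
    intro hT
    by_cases h : T.card ≤ f.totalDegree
    · exact ⟨T, subset_rfl, h, hT⟩
    · have h1 := sum_cube f A T (not_le.1 h)
      have h2 : ∃ S ∈ T.powerset, S ≠ T ∧ MvPolynomial.eval (val (flip A S)) f ≠ 0 := by
        by_contra h3
        push Not at h3
        rw [Finset.sum_eq_single T (fun S hS hne => h3 S hS hne)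
          (fun h4 => absurd (Finset.mem_powerset_self T) h4)] at h1
        exact hT h1
      obtain ⟨S, hS, hne, hS1⟩ := h2
      have hST := Finset.mem_powerset.1 hS
      obtain ⟨S', h5, h6, h7⟩ := ih S (Finset.ssubset_iff_subset_ne.2 ⟨hST, hne⟩) hS1
      exact ⟨S', h5.trans hST, h6, h7⟩

/-! ### The adversary -/

/-- A run which asks existential questions about predicates of small degree has a constant result
on the set where a suitable nonzero polynomial of small degree does not vanish. -/
theorem adversary {l e : ℕ} {p : Polynomial ℕ} (G : List Bool → List Bool → Lang → Prop)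
    (hG : ∀ q y, q.length ≤ l → y.length ≤ p.eval q.length → PolyAt e (G q y)) (S : Set Lang) :
    ∀ (d : ℕ) (T : Run), T.Within l d → ∀ g : MvPolynomial (List Bool) (ZMod 2),
      (∃ A ∈ S, MvPolynomial.eval (val A) g ≠ 0) →
      ∃ g' : MvPolynomial (List Bool) (ZMod 2), g'.totalDegree ≤ g.totalDegree + d * e ∧
        (∃ A ∈ S, MvPolynomial.eval (val A) g' ≠ 0) ∧
        ∃ b : Prop, ∀ A ∈ S, MvPolynomial.eval (val A) g' ≠ 0 →
          MvPolynomial.eval (val A) g ≠ 0 ∧
          (T.Accepts {q | ∃ y, y.length ≤ p.eval q.length ∧ G q y A} ↔ b) := by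
  intro d T
  induction T generalizing d with
  | answer b =>
    intro _ g hg
    exact ⟨g, Nat.le_add_right _ _, hg, b = true, fun A _ h => ⟨h, Iff.rfl⟩⟩
  | ask q no yes ihn ihy =>
    intro hT g hg
    cases d with
    | zero => exact absurd hT (by simp [Run.Within])
    | succ d =>
      obtain ⟨hq, hn, hy⟩ := hT
      by_cases h : ∃ y, y.length ≤ p.eval q.length ∧
          ∃ A ∈ S, MvPolynomial.eval (val A) g ≠ 0 ∧ G q y A
      · obtain ⟨y, hyl, A, hA, hgA, hGA⟩ := h
        obtain ⟨f, hf, hfP⟩ := hG q y hq hyl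
        have h1 : ∃ A ∈ S, MvPolynomial.eval (val A) (g * f) ≠ 0 := by
          refine ⟨A, hA, ?_⟩
          rw [map_mul, (hfP A).1 hGA, mul_one]
          exact hgA
        obtain ⟨g', hd, hne, b, hb⟩ := ihy d hy (g * f) h1
        refine ⟨g', ?_, hne, b, fun A' hA' h' => ?_⟩
        · have := MvPolynomial.totalDegree_mul g f
          rw [add_mul, one_mul]
          omega
        · obtain ⟨h2, h3⟩ := hb A' hA' h'
          rw [map_mul] at h2
          refine ⟨left_ne_zero_of_mul h2, ?_⟩
          have h4 : G q y A' := by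
            refine (hfP A').2 ?_
            exact (zmod_two_cases _).resolve_left (right_ne_zero_of_mul h2)
          have h5 : q ∈ {q : List Bool | ∃ y, y.length ≤ p.eval q.length ∧ G q y A'} :=
            ⟨y, hyl, h4⟩
          rw [← h3]
          simp only [Run.Accepts, h5, true_and, not_true_eq_false, false_and, or_false]
      · push Not at h
        obtain ⟨g', hd, hne, b, hb⟩ := ihn d hn g hg
        refine ⟨g', ?_, hne, b, fun A' hA' h' => ?_⟩
        · rw [add_mul, one_mul]
          omega
        · obtain ⟨h2, h3⟩ := hb A' hA' h'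
          refine ⟨h2, ?_⟩
          have h5 : q ∉ {q : List Bool | ∃ y, y.length ≤ p.eval q.length ∧ G q y A'} := by
            rintro ⟨y, hyl, hy⟩
            exact h y hyl A' hA' h2 hy
          rw [← h3]
          simp only [Run.Accepts, h5, false_and, not_false_eq_true, true_and, false_or]

/-! ### Locality -/

/-- The truth of `P` depends only on the strings of bounded length in the oracle. -/
def Loc (P : Lang → Prop) : Prop :=
  ∃ M : ℕ, ∀ A A' : Lang, (∀ w : List Bool, w.length ≤ M → (w ∈ A ↔ w ∈ A')) → (P A ↔ P A')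

theorem loc_of_polyAt {e : ℕ} {P : Lang → Prop} (h : PolyAt e P) : Loc P := by
  classical
  obtain ⟨f, -, hP⟩ := h
  refine ⟨(f.support.biUnion fun m => m.support).sup List.length, fun A A' hA => ?_⟩
  rw [hP A, hP A']
  have h1 : MvPolynomial.eval (val A) f = MvPolynomial.eval (val A') f := by
    rw [MvPolynomial.eval_eq, MvPolynomial.eval_eq]
    refine Finset.sum_congr rfl fun m hm => ?_
    congr 1
    refine Finset.prod_congr rfl fun i hi => ?_
    have h2 : (i ∈ A) = (i ∈ A') := by
      refine propext (hA i ?_)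
      exact Finset.le_sup (f := List.length) (Finset.mem_biUnion.2 ⟨m, hm, hi⟩)
    simp only [val, h2]
  rw [h1]

theorem loc_exists {S : Set (List Bool)} (hS : S.Finite) (P : List Bool → Lang → Prop)
    (hP : ∀ y ∈ S, Loc (P y)) : Loc fun A => ∃ y, y ∈ S ∧ P y A := by
  classical
  choose! M hM using hP
  refine ⟨hS.toFinset.sup M, fun A A' hA => ?_⟩
  have h1 : ∀ y ∈ S, (P y A ↔ P y A') := fun y hy =>
    hM y hy A A' fun w hw => hA w (hw.trans (Finset.le_sup (f := M) (hS.mem_toFinset.2 hy)))
  constructor
  · rintro ⟨y, hy, h⟩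
    exact ⟨y, hy, (h1 y hy).1 h⟩
  · rintro ⟨y, hy, h⟩
    exact ⟨y, hy, (h1 y hy).2 h⟩

theorem loc_run {l : ℕ} (C : Lang → Lang)
    (hC : ∀ q : List Bool, q.length ≤ l → Loc fun A => q ∈ C A) :
    ∀ (d : ℕ) (T : Run), T.Within l d → Loc fun A => T.Accepts (C A) := by
  intro d T
  induction T generalizing d with
  | answer b => exact fun _ => ⟨0, fun _ _ _ => Iff.rfl⟩
  | ask q no yes ihn ihy =>
    intro hT
    cases d with
    | zero => exact absurd hT (by simp [Run.Within])
    | succ d =>
      obtain ⟨hq, hn, hy⟩ := hT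
      obtain ⟨M1, h1⟩ := hC q hq
      obtain ⟨M2, h2⟩ := ihn d hn
      obtain ⟨M3, h3⟩ := ihy d hy
      refine ⟨max M1 (max M2 M3), fun A A' hA => ?_⟩
      have a1 : q ∈ C A ↔ q ∈ C A' := h1 A A' fun w hw => hA w (by omega)
      have a2 : no.Accepts (C A) ↔ no.Accepts (C A') := h2 A A' fun w hw => hA w (by omega)
      have a3 : yes.Accepts (C A) ↔ yes.Accepts (C A') := h3 A A' fun w hw => hA w (by omega)
      simp only [Run.Accepts, a1, a2, a3]

/-! ### Levels -/

theorem finite_length_eq (n : ℕ) : {w : List Bool | w.length = n}.Finite :=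
  List.finite_length_eq Bool n

theorem finite_length_le (n : ℕ) : {w : List Bool | w.length ≤ n}.Finite :=
  List.finite_length_le Bool n

theorem ncard_level (n : ℕ) : {w : List Bool | w.length = n}.ncard = 2 ^ n := by
  have h := card_vector (α := Bool) n
  rw [Fintype.card_bool, ← Nat.card_eq_fintype_card] at h
  exact h

theorem ncard_add (A : Lang) (n : ℕ) :
    {w : List Bool | w.length = n ∧ w ∈ A}.ncard + {w : List Bool | w.length = n ∧ w ∉ A}.ncard =
      2 ^ n := by
  have h1 : {w : List Bool | w.length = n ∧ w ∈ A}.Finite :=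
    (finite_length_eq n).subset fun w hw => hw.1
  have h2 : {w : List Bool | w.length = n ∧ w ∉ A}.Finite :=
    (finite_length_eq n).subset fun w hw => hw.1
  have h3 : Disjoint {w : List Bool | w.length = n ∧ w ∈ A}
      {w : List Bool | w.length = n ∧ w ∉ A} :=
    Set.disjoint_left.2 fun w hw hw' => hw'.2 hw.2
  rw [← ncard_level n, ← Set.ncard_union_eq h3 h1 h2]
  congr 1
  ext w
  by_cases h : w ∈ A
  · exact ⟨fun hw => hw.elim (fun h => h.1) fun h => h.1, fun hw => Or.inl ⟨hw, h⟩⟩
  · exact ⟨fun hw => hw.elim (fun h => h.1) fun h => h.1, fun hw => Or.inr ⟨hw, h⟩⟩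

/-- The language of the theorem: few strings of length `|x|` are outside of `A`. -/
def maj (A : Lang) : Lang :=
  {x | 3 * {r : List Bool | r.length = x.length ∧ r ∉ A}.ncard ≤ 2 ^ x.length}

/-- On the strings of length `n` the oracle is almost full or almost empty. -/
def Level (s : ℕ → ℕ) (n : ℕ) (A : Lang) : Prop :=
  ({w : List Bool | w.length = n ∧ w ∈ A}.ncard ≤ s n ∧
    3 * {w : List Bool | w.length = n ∧ w ∈ A}.ncard ≤ 2 ^ n) ∨
  ({w : List Bool | w.length = n ∧ w ∉ A}.ncard ≤ s n ∧
    3 * {w : List Bool | w.length = n ∧ w ∉ A}.ncard ≤ 2 ^ n)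

theorem level_congr {s : ℕ → ℕ} {n : ℕ} {A A' : Lang}
    (h : ∀ w : List Bool, w.length = n → (w ∈ A ↔ w ∈ A')) : Level s n A ↔ Level s n A' := by
  have h1 : {w : List Bool | w.length = n ∧ w ∈ A} = {w : List Bool | w.length = n ∧ w ∈ A'} := by
    ext w
    exact and_congr_right fun hw => h w hw
  have h2 : {w : List Bool | w.length = n ∧ w ∉ A} = {w : List Bool | w.length = n ∧ w ∉ A'} := by
    ext w
    exact and_congr_right fun hw => not_congr (h w hw)
  rw [Level, Level, h1, h2]

theorem maj_congr {n : ℕ} {A A' : Lang} (h : ∀ w : List Bool, w.length = n → (w ∈ A ↔ w ∈ A'))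
    {x : List Bool} (hx : x.length = n) : x ∈ maj A ↔ x ∈ maj A' := by
  subst hx
  have h2 : {w : List Bool | w.length = x.length ∧ w ∉ A} =
      {w : List Bool | w.length = x.length ∧ w ∉ A'} := by
    ext w
    exact and_congr_right fun hw => not_congr (h w hw)
  show 3 * _ ≤ _ ↔ 3 * _ ≤ _
  rw [h2]

/-- The language in parity-P relative to `A` given by the machine `H` and the bound `p'`. -/
def parLang (H : Lang → Lang) (p' : Polynomial ℕ) (A : Lang) : Lang :=
  {w | Odd {z : List Bool | z.length ≤ p'.eval w.length ∧ pair w z ∈ H A}.ncard}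

/-- The language in NP relative to `C` given by the machine `G` and the bound `p`. -/
def exLang (G : Lang → Lang) (p : Polynomial ℕ) (C : Lang) : Lang :=
  {q | ∃ y : List Bool, y.length ≤ p.eval q.length ∧ pair q y ∈ G C}

/-- One stage of the construction: the machine is wrong for all oracles which agree with the new
one on short strings. -/
theorem stage {F G H : Lang → Lang} (hF : PolyQueries F) (hG : PolyQueries G)
    (hH : PolyQueries H) {E : Lang → Lang} (hE : PolyExtension E) (p p' : Polynomial ℕ)
    {s : ℕ → ℕ} (hs : ∀ P : Polynomial ℕ, ∀ᶠ n in atTop, P.eval n ≤ s n)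
    (A₀ : Lang) (hA₀ : ∀ n, Level s n A₀) (N : ℕ) :
    ∃ (A : Lang) (N' : ℕ), (∀ n, Level s n A) ∧ N < N' ∧
      (∀ w : List Bool, w.length ≤ N → (w ∈ A ↔ w ∈ A₀)) ∧
      ∀ A' : Lang, (∀ w : List Bool, w.length ≤ N' → (w ∈ A' ↔ w ∈ A)) →
        maj A' ≠ F (exLang G p (parLang H p' (E A'))) := by
  classical
  obtain ⟨pF, hF⟩ := hF
  obtain ⟨pG, hG⟩ := hG
  obtain ⟨pH, hH⟩ := hH
  obtain ⟨pE, hE⟩ := hE
  -- the polynomial bounds
  let P1 : Polynomial ℕ := 2 * pF + 2 + p.comp pF
  let P2 : Polynomial ℕ := pG.comp P1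
  let P3 : Polynomial ℕ := 2 * P2 + 2 + p'.comp P2
  let P4 : Polynomial ℕ := pH.comp P3
  let P5 : Polynomial ℕ := pE.comp P4
  let D : Polynomial ℕ := pF * (P2 * (P4 * P5))
  obtain ⟨n, hn1, hn2, hn3⟩ :=
    ((hs D).and ((eventually_le_two_pow D).and (eventually_gt_atTop N))).exists
  have e1 : P1.eval n = 2 * pF.eval n + 2 + p.eval (pF.eval n) := by
    simp [P1, Polynomial.eval_comp]
  have e2 : P2.eval n = pG.eval (P1.eval n) := by simp [P2, Polynomial.eval_comp]
  have e3 : P3.eval n = 2 * P2.eval n + 2 + p'.eval (P2.eval n) := by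
    simp [P3, Polynomial.eval_comp]
  have e4 : P4.eval n = pH.eval (P3.eval n) := by simp [P4, Polynomial.eval_comp]
  have e5 : P5.eval n = pE.eval (P4.eval n) := by simp [P5, Polynomial.eval_comp]
  have eD : D.eval n = pF.eval n * (P2.eval n * (P4.eval n * P5.eval n)) := by
    simp [D]
  -- degrees
  have c1 : ∀ v : List Bool, v.length ≤ P4.eval n → PolyAt (P5.eval n) (fun A => v ∈ E A) := by
    intro v hv
    obtain ⟨f, hf, hfP⟩ := hE v
    exact ⟨f, hf.trans (by rw [e5]; exact eval_mono pE hv), hfP⟩
  have c2 : ∀ u : List Bool, u.length ≤ P3.eval n →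
      PolyAt (P4.eval n * P5.eval n) (fun A => u ∈ H (E A)) := by
    intro u hu
    obtain ⟨T, hT, hTP⟩ := hH u
    have hle : pH.eval u.length ≤ P4.eval n := by rw [e4]; exact eval_mono pH hu
    have h1 := polyAt_run (l := pH.eval u.length) E (fun q hq => c1 q (hq.trans hle)) _ T hT
    obtain ⟨f, hf, hfP⟩ := h1
    exact ⟨f, hf.trans (Nat.mul_le_mul_right _ hle), fun A => (hTP (E A)).trans (hfP A)⟩
  have c3 : ∀ w : List Bool, w.length ≤ P2.eval n →
      PolyAt (P4.eval n * P5.eval n) (fun A => w ∈ parLang H p' (E A)) := by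
    intro w hw
    refine polyAt_parity (finite_length_le (p'.eval w.length)) (fun z A => pair w z ∈ H (E A)) ?_
    intro z hz
    refine c2 _ ?_
    have hz : z.length ≤ p'.eval w.length := hz
    have h2 := eval_mono p' hw
    rw [length_pair, e3]
    omega
  have c4 : ∀ q y : List Bool, q.length ≤ pF.eval n → y.length ≤ p.eval q.length →
      PolyAt (P2.eval n * (P4.eval n * P5.eval n))
        (fun A => pair q y ∈ G (parLang H p' (E A))) := by
    intro q y hq hy
    obtain ⟨T, hT, hTP⟩ := hG (pair q y)
    have hle : pG.eval (pair q y).length ≤ P2.eval n := by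
      rw [e2]
      refine eval_mono pG ?_
      have h2 := eval_mono p hq
      rw [length_pair, e1]
      omega
    have h1 := polyAt_run (l := pG.eval (pair q y).length) (fun A => parLang H p' (E A))
      (fun q hq => c3 q (hq.trans hle)) _ T hT
    obtain ⟨f, hf, hfP⟩ := h1
    exact ⟨f, hf.trans (Nat.mul_le_mul_right _ hle), fun A => (hTP _).trans (hfP A)⟩
  -- the run on the input `1^n`
  let x : List Bool := List.replicate n true
  have hx : x.length = n := List.length_replicate
  obtain ⟨T, hT, hTP⟩ := hF x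
  rw [hx] at hT
  let S : Set Lang := {A | ∀ w : List Bool, w.length ≠ n → (w ∈ A ↔ w ∈ A₀)}
  obtain ⟨g, hg, ⟨A₁, hA₁, hgA₁⟩, b, hb⟩ := adversary
    (fun q y A => pair q y ∈ G (parLang H p' (E A))) c4 S _ T hT 1
    ⟨A₀, fun w _ => Iff.rfl, by simp⟩
  rw [MvPolynomial.totalDegree_one, zero_add, ← eD] at hg
  have hb' : ∀ A ∈ S, MvPolynomial.eval (val A) g ≠ 0 →
      (x ∈ F (exLang G p (parLang H p' (E A))) ↔ b) := fun A hA h =>
    (hTP _).trans (hb A hA h).2
  -- locality
  have hloc : Loc fun A => x ∈ F (exLang G p (parLang H p' (E A))) := by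
    have h1 : Loc fun A => T.Accepts (exLang G p (parLang H p' (E A))) := by
      refine loc_run (fun A => exLang G p (parLang H p' (E A))) (fun q hq => ?_) _ T hT
      have h2 := loc_exists (finite_length_le (p.eval q.length))
        (fun y A => pair q y ∈ G (parLang H p' (E A)))
        (fun y hy => loc_of_polyAt (c4 q y hq hy))
      exact h2
    obtain ⟨M, hM⟩ := h1
    exact ⟨M, fun A A' h => (hTP _).trans ((hM A A' h).trans (hTP _).symm)⟩
  obtain ⟨M, hM⟩ := hloc
  -- it suffices to find an oracle in `S` with the wrong answer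
  suffices hsuff : ∃ A ∈ S, Level s n A ∧
      (x ∈ maj A ↔ x ∉ F (exLang G p (parLang H p' (E A)))) by
    obtain ⟨A, hAS, hAL, hAx⟩ := hsuff
    refine ⟨A, max M n, fun m => ?_, by omega, fun w hw => hAS w (by omega), fun A' hA' he => ?_⟩
    · by_cases hm : m = n
      · rw [hm]
        exact hAL
      · exact (level_congr fun w hw => hAS w (by omega)).2 (hA₀ m)
    · have h1 : x ∈ F (exLang G p (parLang H p' (E A'))) ↔
          x ∈ F (exLang G p (parLang H p' (E A))) := hM A' A fun w hw => hA' w (by omega)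
      have h2 : x ∈ maj A' ↔ x ∈ maj A := maj_congr (n := n) (fun w hw => hA' w (by omega)) hx
      rw [he, h1] at h2
      rw [← h2] at hAx
      exact iff_not_self hAx
  have hcard : ∀ S' : Finset (List Bool), S'.card ≤ g.totalDegree → S'.card ≤ s n ∧
      3 * S'.card ≤ 2 ^ n := fun S' hS' => ⟨by omega, by omega⟩
  by_cases hbt : b
  · -- an almost empty level
    let A₂ : Lang := {w | w ∈ A₁ ∧ w.length ≠ n}
    have hfin : {w : List Bool | w.length = n ∧ w ∈ A₁}.Finite :=
      (finite_length_eq n).subset fun w hw => hw.1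
    have h1 : flip A₂ hfin.toFinset = A₁ := by
      ext w
      have h2 : w ∈ hfin.toFinset ↔ w.length = n ∧ w ∈ A₁ := hfin.mem_toFinset
      show ((w ∈ A₁ ∧ w.length ≠ n) ∧ w ∉ hfin.toFinset) ∨
        (¬ (w ∈ A₁ ∧ w.length ≠ n) ∧ w ∈ hfin.toFinset) ↔ _
      rw [h2]
      tauto
    obtain ⟨S', hS'1, hS'2, hS'3⟩ := exists_small g A₂ hfin.toFinset (by rw [h1]; exact hgA₁)
    have hS'4 : ∀ w ∈ S', w.length = n := fun w hw => (hfin.mem_toFinset.1 (hS'1 hw)).1
    have h3 : flip A₂ S' ∈ S := by
      intro w hw
      have h4 : w ∉ S' := fun h => hw (hS'4 w h)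
      have h5 := hA₁ w hw
      show ((w ∈ A₁ ∧ w.length ≠ n) ∧ w ∉ S') ∨ (¬ (w ∈ A₁ ∧ w.length ≠ n) ∧ w ∈ S') ↔ _
      tauto
    have h6 : {w : List Bool | w.length = n ∧ w ∈ flip A₂ S'} = (S' : Set (List Bool)) := by
      ext w
      show w.length = n ∧ (((w ∈ A₁ ∧ w.length ≠ n) ∧ w ∉ S') ∨
        (¬ (w ∈ A₁ ∧ w.length ≠ n) ∧ w ∈ S')) ↔ w ∈ S'
      constructor
      · tauto
      · intro hw
        have := hS'4 w hw
        tauto
    have h7 := hcard S' hS'2
    refine ⟨flip A₂ S', h3, Or.inl ?_, ?_⟩
    · rw [h6, Set.ncard_coe_finset]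
      exact h7
    · have h8 := hb' _ h3 hS'3
      have h9 : x ∉ maj (flip A₂ S') := by
        intro h
        have h10 : 3 * {r : List Bool | r.length = x.length ∧ r ∉ flip A₂ S'}.ncard ≤
          2 ^ x.length := h
        rw [hx] at h10
        have h11 := ncard_add (flip A₂ S') n
        rw [h6, Set.ncard_coe_finset] at h11
        have h12 : 0 < 2 ^ n := by positivity
        omega
      tauto
  · -- an almost full level
    let A₂ : Lang := {w | w ∈ A₁ ∨ w.length = n}
    have hfin : {w : List Bool | w.length = n ∧ w ∉ A₁}.Finite :=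
      (finite_length_eq n).subset fun w hw => hw.1
    have h1 : flip A₂ hfin.toFinset = A₁ := by
      ext w
      have h2 : w ∈ hfin.toFinset ↔ w.length = n ∧ w ∉ A₁ := hfin.mem_toFinset
      show ((w ∈ A₁ ∨ w.length = n) ∧ w ∉ hfin.toFinset) ∨
        (¬ (w ∈ A₁ ∨ w.length = n) ∧ w ∈ hfin.toFinset) ↔ _
      rw [h2]
      tauto
    obtain ⟨S', hS'1, hS'2, hS'3⟩ := exists_small g A₂ hfin.toFinset (by rw [h1]; exact hgA₁)
    have hS'4 : ∀ w ∈ S', w.length = n := fun w hw => (hfin.mem_toFinset.1 (hS'1 hw)).1
    have h3 : flip A₂ S' ∈ S := by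
      intro w hw
      have h4 : w ∉ S' := fun h => hw (hS'4 w h)
      have h5 := hA₁ w hw
      show ((w ∈ A₁ ∨ w.length = n) ∧ w ∉ S') ∨ (¬ (w ∈ A₁ ∨ w.length = n) ∧ w ∈ S') ↔ _
      tauto
    have h6 : {w : List Bool | w.length = n ∧ w ∉ flip A₂ S'} = (S' : Set (List Bool)) := by
      ext w
      show w.length = n ∧ ¬ (((w ∈ A₁ ∨ w.length = n) ∧ w ∉ S') ∨
        (¬ (w ∈ A₁ ∨ w.length = n) ∧ w ∈ S')) ↔ w ∈ S'
      constructor
      · tauto
      · intro hw
        have := hS'4 w hw
        tauto
    have h7 := hcard S' hS'2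
    refine ⟨flip A₂ S', h3, Or.inr ?_, ?_⟩
    · rw [h6, Set.ncard_coe_finset]
      exact h7
    · have h8 := hb' _ h3 hS'3
      have h9 : x ∈ maj (flip A₂ S') := by
        show 3 * {r : List Bool | r.length = x.length ∧ r ∉ flip A₂ S'}.ncard ≤ 2 ^ x.length
        rw [hx, h6, Set.ncard_coe_finset]
        exact h7.2
      tauto

/-- The stages put together. -/
theorem generic {ι : Type} [Countable ι] [Nonempty ι] (V : ℕ → Lang → Prop)
    (hV : ∀ n A A', (∀ w : List Bool, w.length = n → (w ∈ A ↔ w ∈ A')) → (V n A ↔ V n A'))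
    (h0 : ∀ n, V n ∅) (R : ι → Lang → Prop)
    (hR : ∀ i A₀, (∀ n, V n A₀) → ∀ N, ∃ (A : Lang) (N' : ℕ), (∀ n, V n A) ∧ N < N' ∧
      (∀ w : List Bool, w.length ≤ N → (w ∈ A ↔ w ∈ A₀)) ∧
      ∀ A' : Lang, (∀ w : List Bool, w.length ≤ N' → (w ∈ A' ↔ w ∈ A)) → R i A') :
    ∃ A, (∀ n, V n A) ∧ ∀ i, R i A := by
  obtain ⟨enum, henum⟩ := exists_surjective_nat ι
  choose! nA nN h1 h2 h3 h4 using hR
  let st : ℕ → Lang × ℕ := fun k =>
    Nat.rec (∅, 0) (fun k q => (nA (enum k) q.1 q.2, nN (enum k) q.1 q.2)) k
  have hst : ∀ k, st (k + 1) = (nA (enum k) (st k).1 (st k).2, nN (enum k) (st k).1 (st k).2) :=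
    fun k => rfl
  have hval : ∀ k n, V n (st k).1 := by
    intro k
    induction k with
    | zero => exact h0
    | succ k ih =>
      rw [hst]
      exact h1 _ _ ih _
  have hlt : ∀ k, (st k).2 < (st (k + 1)).2 := by
    intro k
    rw [hst]
    exact h2 _ _ (hval k) _
  have hmono : Monotone fun k => (st k).2 := monotone_nat_of_le_succ fun k => (hlt k).le
  have hge : ∀ k, k ≤ (st k).2 := by
    intro k
    induction k with
    | zero => exact Nat.zero_le _
    | succ k ih => exact Nat.succ_le_of_lt (lt_of_le_of_lt ih (hlt k))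
  have hagree : ∀ k j, k ≤ j → ∀ w : List Bool, w.length ≤ (st k).2 →
      (w ∈ (st j).1 ↔ w ∈ (st k).1) := by
    intro k j hkj
    induction j, hkj using Nat.le_induction with
    | base => exact fun w _ => Iff.rfl
    | succ j hkj ih =>
      intro w hw
      rw [← ih w hw, hst]
      exact h3 _ _ (hval j) _ w (hw.trans (hmono hkj))
  let A : Lang := {w | w ∈ (st w.length).1}
  have hA : ∀ k, ∀ w : List Bool, w.length ≤ (st k).2 → (w ∈ A ↔ w ∈ (st k).1) := by
    intro k w hw
    show w ∈ (st w.length).1 ↔ _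
    rcases le_total k w.length with h | h
    · exact hagree k w.length h w hw
    · exact (hagree w.length k h w (hge _)).symm
  refine ⟨A, fun n => ?_, fun i => ?_⟩
  · exact (hV n A (st n).1 fun w hw => hA n w (hw ▸ hge _)).2 (hval n n)
  · obtain ⟨k, rfl⟩ := henum i
    refine h4 (enum k) (st k).1 (hval k) (st k).2 A fun w hw => ?_
    have h5 := hA (k + 1) w (by rw [hst]; exact hw)
    rw [hst] at h5
    exact h5

theorem within_answer (l d : ℕ) (b : Bool) : (Run.answer b).Within l d := by
  cases d <;> exact trivial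

theorem countable_polynomial : Countable (Polynomial ℕ) := by
  let f : Polynomial ℕ → (ℕ →₀ ℕ) := fun p =>
    Finsupp.onFinset p.support p.coeff fun n h => Polynomial.mem_support_iff.2 h
  have hf : Function.Injective f := fun p q h =>
    Polynomial.ext fun n => DFunLike.congr_fun h n
  exact hf.countable

theorem polyQueries_id : PolyQueries fun A => A := by
  refine ⟨Polynomial.X + 1, fun x => ⟨Run.ask x (Run.answer false) (Run.answer true), ?_, ?_⟩⟩
  · have h : (Polynomial.X + 1 : Polynomial ℕ).eval x.length = x.length + 1 := by simp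
    rw [h]
    exact ⟨Nat.le_succ _, within_answer _ _ _, within_answer _ _ _⟩
  · intro A
    simp [Run.Accepts]

theorem level_empty (s : ℕ → ℕ) (n : ℕ) : Level s n (∅ : Lang) := by
  left
  have h : {w : List Bool | w.length = n ∧ w ∈ (∅ : Lang)} = ∅ := by
    ext w
    simp
  rw [h]
  simp

/-- **Relative to an oracle, BPP is not contained in P with an oracle in NP with an oracle in
parity-P** (so it is not contained in exists-parity-P), also when these machines may use a
polynomial extension `E A` of the oracle over the field with two elements; the probabilistic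
machine makes a single query and errs on at most `s n` of its `2 ^ n` random strings, for an
arbitrary given superpolynomial function `s`. -/
theorem result (M : Set (Lang → Lang)) (hM : M.Countable) (hq : ∀ F ∈ M, PolyQueries F)
    (hsample : sample ∈ M) (E : Lang → Lang) (hE : PolyExtension E)
    (s : ℕ → ℕ) (hs : ∀ P : Polynomial ℕ, ∀ᶠ n in atTop, P.eval n ≤ s n) :
    ∃ A L : Lang, L ∈ bpOp (rel M A) ∧
      (∀ x : List Bool, {r : List Bool | r.length = x.length ∧ ¬ (r ∈ A ↔ x ∈ L)}.ncard ≤
        s x.length) ∧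
      (∀ C ∈ parityOp (rel M (E A)), ∀ B ∈ existsOp (rel M C), L ∉ rel M B) ∧
      L ∉ existsOp (parityOp (rel M (E A))) := by
  let M' : Set (Lang → Lang) := insert (fun A => A) M
  have hM' : M'.Countable := hM.insert _
  have hq' : ∀ F ∈ M', PolyQueries F := by
    rintro F (rfl | hF)
    · exact polyQueries_id
    · exact hq F hF
  have : Countable M' := hM'.to_subtype
  have : Nonempty M' := ⟨⟨_, Or.inl rfl⟩⟩
  have : Countable (Polynomial ℕ) := countable_polynomial
  obtain ⟨A, hA, hAR⟩ := generic (ι := M' × M' × M' × Polynomial ℕ × Polynomial ℕ)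
    (fun n A => Level s n A) (fun n A A' h => level_congr h) (level_empty s)
    (fun i A => maj A ≠ i.1.1 (exLang i.2.1.1 i.2.2.2.1 (parLang i.2.2.1.1 i.2.2.2.2 (E A))))
    (fun i A₀ hA₀ N => stage (hq' _ i.1.2) (hq' _ i.2.1.2) (hq' _ i.2.2.1.2) hE _ _ hs A₀ hA₀ N)
  have key : ∀ F ∈ M', ∀ G ∈ M', ∀ H ∈ M', ∀ p p' : Polynomial ℕ,
      maj A ≠ F (exLang G p (parLang H p' (E A))) := fun F hF G hG H hH p p' =>
    hAR (⟨F, hF⟩, ⟨G, hG⟩, ⟨H, hH⟩, p, p')
  -- the language and the errors
  have herr : ∀ x : List Bool,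
      {r : List Bool | r.length = x.length ∧ ¬ (r ∈ A ↔ x ∈ maj A)}.ncard ≤ s x.length ∧
      3 * {r : List Bool | r.length = x.length ∧ ¬ (r ∈ A ↔ x ∈ maj A)}.ncard ≤
        2 ^ x.length := by
    intro x
    have h1 := ncard_add A x.length
    have h2 : 0 < 2 ^ x.length := by positivity
    by_cases hx : x ∈ maj A
    · have h3 : {r : List Bool | r.length = x.length ∧ ¬ (r ∈ A ↔ x ∈ maj A)} =
          {r : List Bool | r.length = x.length ∧ r ∉ A} := by
        ext r
        simp [hx]
      rw [h3]
      have h4 : 3 * {r : List Bool | r.length = x.length ∧ r ∉ A}.ncard ≤ 2 ^ x.length := hx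
      rcases hA x.length with h5 | h5
      · omega
      · exact h5
    · have h3 : {r : List Bool | r.length = x.length ∧ ¬ (r ∈ A ↔ x ∈ maj A)} =
          {r : List Bool | r.length = x.length ∧ r ∈ A} := by
        ext r
        simp [hx]
      rw [h3]
      have h4 : ¬ 3 * {r : List Bool | r.length = x.length ∧ r ∉ A}.ncard ≤ 2 ^ x.length := hx
      rcases hA x.length with h5 | h5
      · exact h5
      · omega
  have key2 : ∀ C ∈ parityOp (rel M' (E A)), ∀ B ∈ existsOp (rel M' C), maj A ∉ rel M' B := by
    rintro C ⟨_, ⟨H, hH, rfl⟩, p', hC⟩ B ⟨_, ⟨G, hG, rfl⟩, p, hB⟩ ⟨F, hF, hL⟩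
    have h1 : C = parLang H p' (E A) := Set.ext hC
    have h2 : B = exLang G p C := Set.ext hB
    rw [h2, h1] at hL
    exact key F hF G hG H hH p p' hL
  have hsub : ∀ A' : Lang, rel M A' ⊆ rel M' A' := by
    rintro A' L ⟨F, hF, h⟩
    exact ⟨F, Or.inr hF, h⟩
  have hpar : ∀ K K' : Set Lang, K ⊆ K' → parityOp K ⊆ parityOp K' := by
    rintro K K' h L ⟨B, hB, p, hp⟩
    exact ⟨B, h hB, p, hp⟩
  have hex : ∀ K K' : Set Lang, K ⊆ K' → existsOp K ⊆ existsOp K' := by
    rintro K K' h L ⟨B, hB, p, hp⟩
    exact ⟨B, h hB, p, hp⟩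
  refine ⟨A, maj A, ?_, fun x => (herr x).1, fun C hC B hB hL => ?_, ?_⟩
  · refine ⟨sample A, ⟨sample, hsample, rfl⟩, Polynomial.X, fun x => ?_⟩
    rw [Polynomial.eval_X]
    have h1 : {r : List Bool | r.length = x.length ∧ (pair x r ∈ sample A ↔ x ∈ maj A)}.ncard +
        {r : List Bool | r.length = x.length ∧ ¬ (r ∈ A ↔ x ∈ maj A)}.ncard = 2 ^ x.length := by
      have h2 : {r : List Bool | r.length = x.length ∧ (pair x r ∈ sample A ↔ x ∈ maj A)} =
          {r : List Bool | r.length = x.length ∧ r ∈ {r : List Bool | r ∈ A ↔ x ∈ maj A}} := by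
        ext r
        have h3 : pair x r ∈ sample A ↔ r ∈ A := by
          constructor
          · rintro ⟨x', r', he, hr⟩
            rw [(pair_inj he).2]
            exact hr
          · exact fun hr => ⟨x, r, rfl, hr⟩
        show r.length = x.length ∧ (pair x r ∈ sample A ↔ x ∈ maj A) ↔
          r.length = x.length ∧ (r ∈ A ↔ x ∈ maj A)
        rw [h3]
      rw [h2]
      exact ncard_add {r : List Bool | r ∈ A ↔ x ∈ maj A} x.length
    have h2 := (herr x).2
    omega
  · exact key2 C (hpar _ _ (hsub _) hC) B (hex _ _ (hsub _) hB) (hsub _ hL)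
  · intro hL
    have h1 : maj A ∈ existsOp (parityOp (rel M' (E A))) := hex _ _ (hpar _ _ (hsub _)) hL
    obtain ⟨C, hC, p, hp⟩ := h1
    refine key2 C hC (maj A) ⟨C, ⟨fun A => A, Or.inl rfl, rfl⟩, p, hp⟩ ?_
    exact ⟨fun A => A, Or.inl rfl, rfl⟩

end Pool.Agent.Results.MP_62c2e8_lc.OracleSeparation
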